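import Pool.Agent.W_eea520_L.LawG

set_option autoImplicit false

namespace Pool.Agent.W_eea520_old.EdgeLaws

open Pool.Agent.EEA520 Pool.Agent.EEAN Pool.Agent.EEAL

theorem result (n : ℕ) (ε : Prop) (E : AddSubgroup ℝ) :
    (∀ π : GSys n, Tempered π → (∀ m, IsCharacter m → ∀ t ∈ E, MeroAt π m (pt t)) →
      ∃ c : Wt n × ℝ → ℤ, (∀ w, ∀ t, t ∉ E → c (w, t) = 0) ∧ Orders π E c) ∧
    ∀ c : Wt n × ℝ → ℤ, (∀ w, ∀ t, t ∉ E → c (w, t) = 0) → List.TFAE [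
      ∃ π : GSys n, Tempered π ∧ (ε → ∀ p, (π p).c ^ 2 * ∏ i, (π p).x i = 1) ∧ Orders π E c,
      ∃ π : GSys n, Tempered π ∧ (ε → ∀ p, (π p).c ^ 2 * ∏ i, (π p).x i = 1) ∧
        (∀ m, IsCharacter m → Continues π m) ∧ Orders π ⊤ c ∧
        ∀ w, (∀ t : ℝ, t ≠ 0 → c (w, t) = 0) →
          NatMean (fun p => ∑ g : Weyl n, ((π p).ev (wact g w) : ℂ).re) (c (w, 0)),
      PosDef c ∧ Normal ε c,
      (∃ (r : ℕ) (f : Fin r → Wt n × ℝ → ℤ) (H : Fin r → AddSubgroup (Wt n × ℝ)),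
        (∀ i, PosDef (f i) ∧ FinMod (f i) (H i)) ∧ ∀ x, c x = ∑ i, f i x) ∧ Normal ε c] :=
  ⟨fun _ hπ h => exists_orders hπ h, fun c hE => lawG n ε E c hE⟩

end Pool.Agent.W_eea520_old.EdgeLaws
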