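import Pool.Agent.W_eea520p_h56.Main

/-!
# The edge for tuples of systems

`π i`, `i < r`, are tempered systems of parameters for `GSp_{2 n_i}`, of Sato-Tate type at the point `1`: all
nontrivial irreducible representations of `SO_{2 n_i + 1}` have the order zero there. The Euler products of
the tuple for the tensor products `V_1 ⊗ … ⊗ V_r` of irreducible representations `V_i` of `SO_{2 n_i + 1}`
are meromorphic at the point `1`. Then the orders for the tensor products of two standard representations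
decide everything.
-/

set_option autoImplicit false

namespace Pool.Agent.Results.MP_eea520_nt.JointEdge

open Pool.Agent.EEA520 Pool.Agent.EEAN Pool.Agent.EEAP

theorem result {r : ℕ} {n : Fin r → ℕ} (hn : ∀ i, 1 ≤ n i) (π : (i : Fin r) → GSys (n i))
    (hπ : ∀ i, Tempered (π i))
    (hST : ∀ (i : Fin r) (μ : Fin (n i) → ℤ) (m : Wt (n i) →₀ ℤ), IsIrr 0 μ m → μ ≠ 0 →
      PoleOrder (π i) m 1 0)
    (hM : ∀ (μ : (i : Fin r) → Fin (n i) → ℤ) (m : (i : Fin r) → Wt (n i) →₀ ℤ), Irrs μ m →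
      MeroAtP π m 1) :
    (∀ S : Finset (Fin r),
      (∀ i ∈ S, ∀ j ∈ S, i ≠ j → ∀ m : (i : Fin r) → Wt (n i) →₀ ℤ, Irrs (stdWt n i j) m →
        PoleOrderP π m 1 0) →
      ∀ (μ : (i : Fin r) → Fin (n i) → ℤ) (m : (i : Fin r) → Wt (n i) →₀ ℤ), Irrs μ m →
        (∀ i, i ∉ S → μ i = 0) → μ ≠ 0 → PoleOrderP π m 1 0) ∧
    (∀ i j : Fin r, i ≠ j → ∀ m : (i : Fin r) → Wt (n i) →₀ ℤ, Irrs (stdWt n i j) m →
      PoleOrderP π m 1 0 ∨ (PoleOrderP π m 1 1 ∧ n i = n j ∧ ∀ k, Summable fun p : Pr =>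
        ‖(cpol (π i p)).coeff k - (cpol (π j p)).coeff k‖ ^ 2 / ((p : ℕ) : ℝ))) ∧
    ((∀ (t : ℝ) (μ : (i : Fin r) → Fin (n i) → ℤ) (m : (i : Fin r) → Wt (n i) →₀ ℤ), Irrs μ m →
        MeroAtP π m (pt t)) →
      ∀ (μ : (i : Fin r) → Fin (n i) → ℤ) (m : (i : Fin r) → Wt (n i) →₀ ℤ), Irrs μ m →
        (∀ t : ℝ, t ≠ 0 → PoleOrderP π m (pt t) 0) ∧
        ∃ k : ℤ, PoleOrderP π m 1 k ∧ NatMean (fun p => (∏ i, trc (π i) (m i) p).re) k) :=
  ⟨fun S hS μ m hm hμ hμ0 => main_A hn hπ hST hM S hS μ m hm hμ hμ0,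
    fun _ _ hij m hm => main_B hn hπ hST hM hij m hm,
    fun hM' μ m hm => main_C hn hπ hST hM' μ m hm⟩

end Pool.Agent.Results.MP_eea520_nt.JointEdge
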