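import Pool.Agent.W_eea520p_h89.JLaw

/-!
# The edge for tuples of systems

`π i`, `i < r`, are tempered systems of parameters for `GSp_{2 n_i}`, of Sato-Tate type at the point `1`: all
nontrivial irreducible representations of `SO_{2 n_i + 1}` have the order zero there. The Euler products of
the tuple for the tensor products `V_1 ⊗ … ⊗ V_r` of irreducible representations `V_i` of `SO_{2 n_i + 1}`
are meromorphic at the point `1`. Then the orders for the tensor products of two standard representations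
decide everything: the indices fall into classes, and the orders for all the products are the products of
the multiplicities of the trivial representation in the parts that belong to the classes.
-/

set_option autoImplicit false

namespace Pool.Agent.Results.MP_eea520_nt.JointEdge

open Pool.Agent.EEA520 Pool.Agent.EEAN Pool.Agent.EEAP

theorem result {r : ℕ} {n : Fin r → ℕ} (hn : ∀ i, 1 ≤ n i) (π : (i : Fin r) → GSys (n i))
    (hπ : ∀ i, Tempered (π i))
    (hST : ∀ (i : Fin r) (μ : Fin (n i) → ℤ) (m : Wt (n i) →₀ ℤ), IsIrr 0 μ m → μ ≠ 0 →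
      PoleOrder (π i) m 1 0)
    (hM : ∀ (μ : (i : Fin r) → Fin (n i) → ℤ) (m : (i : Fin r) → Wt (n i) →₀ ℤ), Irrs μ m →
      MeroAtP π m 1) :
    (∃ ρ : Fin r → Fin r, (∀ i, ρ (ρ i) = ρ i ∧ n (ρ i) = n i) ∧
      (∀ i j, i ≠ j → ∀ m : (i : Fin r) → Wt (n i) →₀ ℤ, Irrs (stdWt n i j) m →
        PoleOrderP π m 1 (if ρ i = ρ j then 1 else 0)) ∧
      (∀ i j, ρ i = ρ j → ∀ k, Summable fun p : Pr =>
        ‖(cpol (π i p)).coeff k - (cpol (π j p)).coeff k‖ ^ 2 / ((p : ℕ) : ℝ)) ∧
      ∀ (μ : (i : Fin r) → Fin (n i) → ℤ) (m : (i : Fin r) → Wt (n i) →₀ ℤ), Irrs μ m →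
        PoleOrderP π m 1 (∏ l, mult1 (∏ i with ρ i = l, crs (n l) (m i)))) ∧
    ((∀ (t : ℝ) (μ : (i : Fin r) → Fin (n i) → ℤ) (m : (i : Fin r) → Wt (n i) →₀ ℤ), Irrs μ m →
        MeroAtP π m (pt t)) →
      ∀ (μ : (i : Fin r) → Fin (n i) → ℤ) (m : (i : Fin r) → Wt (n i) →₀ ℤ), Irrs μ m →
        (∀ t : ℝ, t ≠ 0 → PoleOrderP π m (pt t) 0) ∧
        ∃ k : ℤ, PoleOrderP π m 1 k ∧ NatMean (fun p => (∏ i, trc (π i) (m i) p).re) k) :=
  ⟨main_D hn hπ hST hM, fun hM' μ m hm => main_C hn hπ hST hM' μ m hm⟩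

end Pool.Agent.Results.MP_eea520_nt.JointEdge
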