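import Pool.Agent.W_eea520p_h89.JFin
import Pool.Agent.W_eea520p_h53.TwMain

/-!
# The edge for tuples of systems

`π i`, `i < r`, are tempered systems of parameters for `GSp_{2 n_i}`, of Sato-Tate type at the point `1`: all
nontrivial irreducible representations of `SO_{2 n_i + 1}` have the order zero there. The Euler products of
the tuple for the tensor products `V_1 ⊗ … ⊗ V_r` of irreducible representations `V_i` of `SO_{2 n_i + 1}`
are meromorphic at the point `1`. Then the orders for the tensor products of two standard representations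
decide everything: the indices fall into classes, and the orders for all the products are the products of
the multiplicities of the trivial representation in the parts that belong to the classes. For the
representations up to a given level finitely many Euler products are enough, and the bound depends only on
the `n_i` and on the level. The joint law is independent of every function `e` from the primes to the unit
circle for which the twisted Euler products are meromorphic at the point `1` (Dirichlet characters,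
`p ^ (-it)`).
-/

set_option autoImplicit false

namespace Pool.Agent.Results.MP_eea520_nt.JointEdge

open Pool.Agent.EEA520 Pool.Agent.EEAN Pool.Agent.EEAP

theorem result {r : ℕ} {n : Fin r → ℕ} (hn : ∀ i, 1 ≤ n i) :
    (∀ M : ℕ, ∃ R : ℕ, ∀ π : (i : Fin r) → GSys (n i), (∀ i, Tempered (π i)) →
      (∀ (i : Fin r) (μ : Fin (n i) → ℤ) (m : Wt (n i) →₀ ℤ), IsIrr 0 μ m → μ ≠ 0 →
        (∀ j, μ j ≤ R) → PoleOrder (π i) m 1 0) →
      (∀ (μ : (i : Fin r) → Fin (n i) → ℤ) (m : (i : Fin r) → Wt (n i) →₀ ℤ), Irrs μ m →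
        (∀ i j, μ i j ≤ R) → MeroAtP π m 1) →
      ∃ ρ : Fin r → Fin r, (∀ i, ρ (ρ i) = ρ i ∧ n (ρ i) = n i) ∧
        (∀ i j, i ≠ j → ∀ m : (i : Fin r) → Wt (n i) →₀ ℤ, Irrs (stdWt n i j) m →
          PoleOrderP π m 1 (if ρ i = ρ j then 1 else 0)) ∧
        (∀ i j, ρ i = ρ j → ∀ k, Summable fun p : Pr =>
          ‖(cpol (π i p)).coeff k - (cpol (π j p)).coeff k‖ ^ 2 / ((p : ℕ) : ℝ)) ∧
        ∀ (μ : (i : Fin r) → Fin (n i) → ℤ) (m : (i : Fin r) → Wt (n i) →₀ ℤ), Irrs μ m →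
          (∀ i j, μ i j ≤ M) →
          PoleOrderP π m 1 (∏ l, mult1 (∏ i with ρ i = l, crs (n l) (m i)))) ∧
    ∀ π : (i : Fin r) → GSys (n i), (∀ i, Tempered (π i)) →
      (∀ (i : Fin r) (μ : Fin (n i) → ℤ) (m : Wt (n i) →₀ ℤ), IsIrr 0 μ m → μ ≠ 0 →
        PoleOrder (π i) m 1 0) →
      (∀ (μ : (i : Fin r) → Fin (n i) → ℤ) (m : (i : Fin r) → Wt (n i) →₀ ℤ), Irrs μ m →
        MeroAtP π m 1) →
      (∃ ρ : Fin r → Fin r, (∀ i, ρ (ρ i) = ρ i ∧ n (ρ i) = n i) ∧
        (∀ i j, i ≠ j → ∀ m : (i : Fin r) → Wt (n i) →₀ ℤ, Irrs (stdWt n i j) m →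
          PoleOrderP π m 1 (if ρ i = ρ j then 1 else 0)) ∧
        (∀ i j, ρ i = ρ j → ∀ k, Summable fun p : Pr =>
          ‖(cpol (π i p)).coeff k - (cpol (π j p)).coeff k‖ ^ 2 / ((p : ℕ) : ℝ)) ∧
        ∀ (μ : (i : Fin r) → Fin (n i) → ℤ) (m : (i : Fin r) → Wt (n i) →₀ ℤ), Irrs μ m →
          PoleOrderP π m 1 (∏ l, mult1 (∏ i with ρ i = l, crs (n l) (m i)))) ∧
      (∀ e : Pr → ℂ, (∀ p, ‖e p‖ = 1) →
        (∀ (μ : (i : Fin r) → Fin (n i) → ℤ) (m : (i : Fin r) → Wt (n i) →₀ ℤ), Irrs μ m →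
          MeroAtT π m e) →
        ∃ k : ℤ, |k| ≤ 1 ∧
          ∀ (μ : (i : Fin r) → Fin (n i) → ℤ) (m : (i : Fin r) → Wt (n i) →₀ ℤ), Irrs μ m →
            ∀ a : ℤ, PoleOrderP π m 1 a → PoleOrderT π m e (k * a)) ∧
      ((∀ (t : ℝ) (μ : (i : Fin r) → Fin (n i) → ℤ) (m : (i : Fin r) → Wt (n i) →₀ ℤ), Irrs μ m →
          MeroAtP π m (pt t)) →
        ∀ (μ : (i : Fin r) → Fin (n i) → ℤ) (m : (i : Fin r) → Wt (n i) →₀ ℤ), Irrs μ m →
          (∀ t : ℝ, t ≠ 0 → PoleOrderP π m (pt t) 0) ∧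
          ∃ k : ℤ, PoleOrderP π m 1 k ∧ NatMean (fun p => (∏ i, trc (π i) (m i) p).re) k) :=
  ⟨fun M => fin_law hn M, fun _ hπ hST hM =>
    ⟨main_D hn hπ hST hM, fun _ he hMe => main_T hn hπ hST hM he hMe,
      fun hM' μ m hm => main_C hn hπ hST hM' μ m hm⟩⟩

end Pool.Agent.Results.MP_eea520_nt.JointEdge
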