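import Pool.Agent.W_eea520_h70.Main71

/-!
# Analytic continuation of the L-functions of `GSp(2n)`: the square-integrable spectrum is enough

`τ i`, `i < r`, are systems of parameters for `GL_{k i}` (for every prime `p` an element of the maximal
torus) of determinant `1` which satisfy `|τ i| ≤ p ^ θ` with `θ < 1/2` at almost all primes. The example to
have in mind: distinct cuspidal automorphic representations of symplectic type (with the bound of
Luo, Rudnick and Sarnak), for instance cuspidal representations of `PGL_2`, the spin lifts to `GL_4` of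
cuspidal representations of `PGSp_4`, or the lifts to `GL_{2g}` of generic cuspidal representations of
the split orthogonal groups `SO_{2g+1}`.

For a finite set `B` of blocks `(i, b)` and a number `c` the predicate `HasParameter τ B c π` says that `π` is
(at almost all primes) the system for `GSp_{2n}`, `n = ∑ k_i b + c`, with the coordinates
`x = {τ_i p ^ (-(j + 1/2)) : (i, b) ∈ B, 0 ≤ j < b} ∪ {p ^ (-(j + 1)) : 0 ≤ j < c}` and trivial central
character. In the example it is the system of Satake parameters of the Arthur parameter
`⊞_{(i, b) ∈ B} τ_i [2b] ⊞ [2c+1]`; if `c ≥ b` for all blocks, Arthur's character of this parameter is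
trivial and it belongs to an automorphic representation of `PGSp_{2n}` which occurs in the space of
square-integrable automorphic forms. (For one form of `PGL_2`, `r = 1` and `k = 2`, and `c = 0` these are
the parameters of the lifts of Ikeda.)

The Euler product of such a `π` for the spin representation converges absolutely exactly for
`Re s > height k B c + 1`; `height k B c` grows quadratically in the `b`.
-/

namespace Pool.Agent.Results.MP_eea520_nt.SquareIntegrable

open Pool.Agent.EEA520 Filter

/-- Let `bl_i ≥ 1` be `k_i - 1`, or `k_i / 2` if `τ_i` is closed under inversion (the symplectic case; so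
`bl_i = 1` for a form of `PGL_2` and `bl_i = 2` for a form of `PGSp_4`). The following are equivalent:

(1) for every `M` there is a finite set `N` of at least `M` integers `b ≥ M` such that for all sets `B` of
blocks `(i, b)`, `b ∈ N`, with exactly `bl_i` blocks for every `i`, there are a number `c` (for example,
`c ≥ b` for all blocks) and a system `π` with the parameter `(B, c)` whose Euler product for the spin
representation extends meromorphically to `Re s > height k B c - M ∑_{(i, b) ∈ B} b`;

(2) for all finite sets `B` of blocks, all `c`, all `π` with the parameter `(B, c)` and all virtual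
characters `m` of `GSpin_{2n+1}` the Euler product of `π` for `m` extends meromorphically to `ℂ`;

(3) for all virtual characters `m` of `GL_{k_1} × … × GL_{k_r}` the Euler product of `(τ_1, …, τ_r)` for `m`
extends meromorphically to `ℂ`. -/
theorem result {r : ℕ} (hr : 0 < r) {k : Fin r → ℕ} (bl : Fin r → ℕ)
    (τ : (i : Fin r) → GLSys (k i)) (θ : ℝ) (hθ : θ < 1 / 2)
    (hτ : ∀ i, ∀ᶠ p : Pr in cofinite,
      (∀ l, ‖(τ i p l : ℂ)‖ ≤ ((p : ℕ) : ℝ) ^ θ) ∧ ∏ l, τ i p l = 1)
    (hbl : ∀ i, 1 ≤ bl i ∧ (k i = bl i + 1 ∨ (k i = 2 * bl i ∧ ∀ᶠ p : Pr in cofinite,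
      Finset.univ.val.map (fun l => (τ i p l)⁻¹) = Finset.univ.val.map (τ i p)))) :
    List.TFAE [
      ∀ M : ℕ, ∃ N : Finset ℕ, M ≤ N.card ∧ (∀ b ∈ N, M ≤ b) ∧
        ∀ B : Finset (Fin r × ℕ), (∀ y ∈ B, y.2 ∈ N) →
          (∀ i, (B.filter fun y => y.1 = i).card = bl i) →
          ∃ (c n : ℕ) (π : GSys n), HasParameter τ B c π ∧
            ContinuesTo (height k B c - M * ∑ y ∈ B, (y.2 : ℝ)) π (spin n),
      ∀ (B : Finset (Fin r × ℕ)) (c n : ℕ) (π : GSys n), HasParameter τ B c π →
        ∀ m : Wt n →₀ ℤ, IsCharacter m → Continues π m,
      ∀ m : PWt k →₀ ℤ, IsProdSymmetric m → ProdContinues τ m] :=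
  main71 hr bl τ θ hθ hτ hbl

end Pool.Agent.Results.MP_eea520_nt.SquareIntegrable
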